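import Pool.Agent.Q57.ZP.Thue
import Pool.Agent.Results.MP_a325a5_ag.LegendreScaledImages

/-!
# MP_28d749_ag: Pink's conjecture for families of projective sets of any dimension mapped to the fibre
powers of the Legendre family, with finitely many exceptions

The abelian scheme is `𝒜 = E_L^n × G_m^q → Y(2) × G_m^q`, `q ≤ 1`, where `E_L^n` is the `n`-th fibre
power of the Legendre family of elliptic curves `y² = x (x - 1) (x - t)` over `Y(2)`, the line of the
parameters `t ≠ 0, 1`. For `q = 0` this is the `n`-th fibre power of the Legendre family itself. Its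
points are `(t, P, u)`, `P_i` points of the Legendre curve with the parameter `t`, `u_j ≠ 0` (`Amb`).

`InSubgroup ρ z`: the point `z` lies in an algebraic subgroup of codimension at least `ρ` of its fibre
`E_t^n`, i.e. in `𝒜^[≥ρ]`. The algebraic subgroups are given, up to torsion, by linear relations
between the `P_i`: with integral coefficients, or with coefficients in `ℤ + ℤ φ` if the fibre has the
complex multiplication `φ`; then the rank over `ℤ` of the module of the relations is twice the
codimension.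

We consider the constructible sets `X_c ⊂ 𝒜` of the starting file `LegendreScaledImages` of
`MP_a325a5_ag` (whose definitions `scaled`, `IsMap`, `IsScaling` are used here): `Y ⊆ P^N` is a
projective algebraic set of any dimension over a countable field `K ⊂ ℂ`, `f_0 = a_0 / b_0`,
`f_i = a_i / (b_0 b_i)`, `f_j = a_j / b_j` are rational functions on `Y` over `K`, one for every
coordinate `t`, `x (P_i)`, `u_j`, no point of `Y` is on `m + 1` of the divisors `a_s b_s = 0` and the
coordinate hyperplanes (for `Y` of dimension `m` this is so in general), and `X_c` is the set of all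
points with `t = f_0 (y) / c_0`, `x (P_i) = f_i (y) / (c_0 c_i)`, `u_j = f_j (y) / c_j` for some
`y ∈ Y`.

`Pink K m X_c`, the strong form of Pink's conjecture:

* `X_c ∩ 𝒜^[>m]` is empty;
* for all `ρ` every point of `X_c ∩ 𝒜^[≥ρ]` has transcendence degree at most `m - ρ` over `K`, and
  every irreducible closed set which is, outside of a hypersurface, in `X_c ∩ 𝒜^[≥ρ]` has dimension
  at most `m - ρ`. (For `ρ = 0`: `X_c` has dimension at most `m`; for `ρ = 1`: no component of
  dimension `m` is in a strict group subscheme.)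

**The theorem.** Let `β ≥ 3`, let `F_0, F_i, F_j` be nonzero polynomials with rational coefficients,
`α₁ ≠ α₂` two rational numbers. Suppose that for `α = α₁` and for `α = α₂` the orders of `F_0`, `F_i`
at `α` are at least `β` and have pairwise differences prime to `β` (for example: `β` is a prime number,
`β > n`, and the orders are pairwise incongruent modulo `β`), and the order of `F_j` at `α` is at least
`1`. Let `S` be a finite set of primes. Then for all but finitely many `S`-integers `τ` the following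
holds for all rational `S`-units `w` and all natural numbers `z`: if `w_i z_i ^ β F_i (τ)`,
`w_j z_j F_j (τ)` are natural numbers (this is a condition on the signs and the denominators only) then
`X_c`, `c_i = z_i (w_i F_i (τ)) ^ (1 / β)`, `c_j = w_j z_j F_j (τ)`, has the property `Pink`. The finite
set of the exceptions does not depend on `w` and `z`.

The known families (starting file, and `LegendreScalings`) have up to `√H`, resp.
`H ^ (k / β) (log H) ^ E` exceptions among the members with `|τ| ≤ H`, and no multipliers. The new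
arithmetic part (`Pool.Agent.Q57.ZP.thue_finite`): the `S`-integers `τ` such that the orders of
`τ - α₁` and `τ - α₂` at all large primes are divisible by `β` are finite in number; this follows from
the theorem of Mahler on the prime divisors of the values of binary forms (from the theorem of Ridout).
-/

set_option autoImplicit false

namespace Pool.Agent.Results.MP_28d749_ag.FinitelyManyExceptions

open MvPolynomial Pool.Agent.W466.EP Pool.Agent.W282.ZP Pool.Agent.W282.LF
open Pool.Agent.Results.MP_a325a5_ag.LegendreScaledImages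

variable {n q : ℕ}

/-- The point `z = (t, P, u)` of `E_L^n × G_m^q` lies in an algebraic subgroup of codimension at least
`ρ` of its fibre `E_t^n`. -/
def InSubgroup (ρ : ℕ) (z : Amb n q) : Prop :=
  (∃ (T : ℕ) (M : Submodule ℤ (Fin n → ℤ)), 0 < T ∧ ρ ≤ Module.finrank ℤ M ∧
    ∀ r ∈ M, T • ∑ i, r i • z.P i = 0) ∨
  ∃ (φ : CMLeg z.t) (T : ℕ) (M : Submodule ℤ (Fin n → ℤ × ℤ)), 0 < T ∧
    2 * ρ ≤ Module.finrank ℤ M ∧
    ∀ r ∈ M, T • ∑ i, ((r i).1 • z.P i + (r i).2 • φ.φ (z.P i)) = 0

/-- The strong form of Pink's conjecture. -/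
def Pink (K : Subfield ℂ) (m : ℕ) (V : Set (Amb n q)) : Prop :=
  (∀ z ∈ V, ∀ ρ, m < ρ → ¬ InSubgroup ρ z) ∧
  ∀ ρ : ℕ, (∀ z ∈ V, InSubgroup ρ z → ∀ S : Finset (Ind n q),
      AlgebraicIndependent K (fun s : S => coords z s) → S.card + ρ ≤ m) ∧
    ∀ (s : ℕ) (ε : Fin s ≃ Ind n q) (W : Set (Fin s → ℂ)) (f : MvPolynomial (Fin s) ℂ),
      (∀ w ∈ W, eval w f ≠ 0 → ∃ z ∈ V, InSubgroup ρ z ∧ ∀ i, w i = coords z (ε i)) →
      zcl W ⊆ W → (idealOf W).IsPrime → f ∉ idealOf W →
      zdim W + (ρ : Cardinal) ≤ (m : Cardinal)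

/-- The condition on the orders of the polynomials at the number `α`. -/
structure GoodOrders (β : ℕ) (F : Ind n q → Polynomial ℚ) (α : ℚ) : Prop where
  ge : ∀ i, β ≤ (F (Sum.inl i)).rootMultiplicity α
  diff : ∀ i j, i ≠ j → Int.gcd
    ((F (Sum.inl i)).rootMultiplicity α - (F (Sum.inl j)).rootMultiplicity α) β = 1
  tor : ∀ j, 1 ≤ (F (Sum.inr j)).rootMultiplicity α

/-- The rational number `t` is an `S`-integer. -/
def IsSInt (S : Finset ℕ) (t : ℚ) : Prop := ∀ p : ℕ, p.Prime → p ∣ t.den → p ∈ S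

/-- The rational number `w` is an `S`-unit. -/
def IsSUnit (S : Finset ℕ) (w : ℚ) : Prop :=
  w ≠ 0 ∧ ∀ p : ℕ, p.Prime → (p ∣ w.num.natAbs ∨ p ∣ w.den) → p ∈ S

theorem pink_of_noAtypical (K : Subfield ℂ) [Countable K] {m : ℕ} {V : Set (Amb n q)}
    (h : NoAtypical K ∅ m V) : Pink K m V := by
  classical
  have hpt : ∀ ρ : ℕ, ∀ z ∈ V, InSubgroup ρ z → ∀ S : Finset (Ind n q),
      AlgebraicIndependent K (fun s : S => coords z s) → S.card + ρ ≤ m := by
    rintro ρ z hz (⟨T, M, hT, hM, hr⟩ | ⟨φ, T, M, hT, hM, hr⟩) S hS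
    · let Z : Special n q ∅ :=
        { E := .gen M, T := T, T0 := hT, relm := ⊥, pt := 1,
          hullm := fun j => ⟨1, one_pos, by simp⟩ }
      have h1 := (h Z).1 z ⟨hz, hr, fun b hb => by
        rw [(Submodule.mem_bot ℤ).1 hb]
        simp⟩ S hS
      have h2 : Z.codim = Module.finrank ℤ M + Module.finrank ℤ (⊥ : Submodule ℤ (Fin q → ℤ)) := rfl
      rw [h2] at h1
      omega
    · let Z : Special n q ∅ :=
        { E := .cm z.t φ M, T := T, T0 := hT, relm := ⊥, pt := 1,
          hullm := fun j => ⟨1, one_pos, by simp⟩ }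
      have h1 := (h Z).1 z ⟨hz, ⟨rfl, hr⟩, fun b hb => by
        rw [(Submodule.mem_bot ℤ).1 hb]
        simp⟩ S hS
      have h2 : Z.codim = 1 + (Module.finrank ℤ M + 1) / 2 +
        Module.finrank ℤ (⊥ : Submodule ℤ (Fin q → ℤ)) := rfl
      rw [h2] at h1
      omega
  refine ⟨fun z hz ρ hρ hin => ?_, fun ρ => ⟨hpt ρ, ?_⟩⟩
  · have h1 := hpt ρ z hz hin ∅ (by
      have : IsEmpty (∅ : Finset (Ind n q)) := by
        refine ⟨fun x => ?_⟩
        exact absurd x.2 (Finset.notMem_empty _)
      exact algebraicIndependent_empty_type)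
    rw [Finset.card_empty] at h1
    omega
  · intro s ε W f hW hcl hprime hf
    obtain ⟨w, hwW, hfw, T, hT, hdim⟩ := generic_dim_open K W hprime hcl f hf
    obtain ⟨z, hz, hin, hwz⟩ := hW w hwW hfw
    let S : Finset (Ind n q) := T.map ε.toEmbedding
    have hS : AlgebraicIndependent K (fun s : S => coords z s) := by
      let f : S → T := fun s => ⟨ε.symm s, by
        obtain ⟨t, ht, hts⟩ := Finset.mem_map.1 s.2
        have h2 : ε.symm (s : Ind n q) = t := by
          rw [← hts]
          exact ε.symm_apply_apply t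
        rw [h2]
        exact ht⟩
      have hf : Function.Injective f := by
        intro s s' hss
        have h2 := congrArg (Subtype.val : T → Fin _) hss
        exact Subtype.ext (ε.symm.injective h2)
      have h2 := hT.comp f hf
      convert h2 using 1
      funext s
      change coords z s = w (ε.symm s)
      rw [hwz, ε.apply_symm_apply]
    have h2 := hpt ρ z hz hin S hS
    rw [Finset.card_map] at h2
    calc zdim W + (ρ : Cardinal) ≤ (T.card : Cardinal) + (ρ : Cardinal) := by gcongr
      _ = ((T.card + ρ : ℕ) : Cardinal) := by push_cast; rfl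
      _ ≤ (m : Cardinal) := by exact_mod_cast h2

/-- The order of an `S`-unit at a large prime. -/
theorem val_SUnit {S : Finset ℕ} {w : ℚ} (hw : IsSUnit S w) {p : ℕ} (hp : p.Prime) (hpS : p ∉ S) :
    padicValRat p w = 0 := by
  have h1 : ¬ p ∣ w.num.natAbs := fun h => hpS (hw.2 p hp (Or.inl h))
  have h2 : ¬ p ∣ w.den := fun h => hpS (hw.2 p hp (Or.inr h))
  rw [padicValRat_def, padicValNat.eq_zero_of_not_dvd h2, padicValInt,
    padicValNat.eq_zero_of_not_dvd h1]
  simp

/-- The members of the family are spread out, with finitely many exceptions. -/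
theorem spread (n q D : ℕ) (hq : q ≤ 1) {β : ℕ} (hβ : 3 ≤ β) (F : Ind n q → Polynomial ℚ)
    (hF : ∀ i, F i ≠ 0) {α₁ α₂ : ℚ} (hα : α₁ ≠ α₂) (h₁ : GoodOrders β F α₁)
    (h₂ : GoodOrders β F α₂) (S : Finset ℕ) :
    {τ : ℚ | IsSInt S τ ∧ ¬ ∀ (w : Ind n q → ℚ) (z M : Ind n q → ℕ), (∀ i, IsSUnit S (w i)) →
      (∀ i, z i ≠ 0) →
      (∀ i, (M (Sum.inl i) : ℚ) = w (Sum.inl i) * (z (Sum.inl i) : ℚ) ^ β *
        (F (Sum.inl i)).eval τ) →
      (∀ j, (M (Sum.inr j) : ℚ) = w (Sum.inr j) * (z (Sum.inr j) : ℚ) * (F (Sum.inr j)).eval τ) →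
      SpreadL n q D β (fun i => M (Sum.inl i)) (fun j => M (Sum.inr j))}.Finite := by
  classical
  choose D₁ hD₁ using fun i => Pool.Agent.Q57.ZP.order_eval (F i) (hF i) α₁
  choose D₂ hD₂ using fun i => Pool.Agent.Q57.ZP.order_eval (F i) (hF i) α₂
  set E : ℕ := D + (∑ i, D₁ i) + (∑ i, D₂ i) + ∑ s ∈ S, s with hE
  refine (Pool.Agent.Q57.ZP.thue_finite hβ hα E).subset ?_
  rintro τ ⟨hτ, hex⟩
  by_contra hcon
  apply hex
  intro w z M hw hz hM1 hM2
  rw [Set.mem_ofPred_eq] at hcon
  push Not at hcon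
  obtain ⟨p, hp, hpE, hcon⟩ := hcon
  haveI : Fact p.Prime := ⟨hp⟩
  have hpS : p ∉ S := by
    intro h
    have := Finset.single_le_sum (f := fun s : ℕ => s) (fun _ _ => Nat.zero_le _) h
    omega
  have hden : ¬ p ∣ τ.den := fun h => hpS (hτ p hp h)
  -- one of the two numbers
  obtain ⟨α, hgood, hnd, hord⟩ : ∃ α : ℚ, GoodOrders β F α ∧
      ¬ β ∣ (τ - α).num.natAbs.factorization p ∧
      (τ ≠ α → (p : ℤ) ∣ (τ - α).num → ∀ i, (F i).eval τ ≠ 0 ∧ padicValRat p ((F i).eval τ) =
        ((F i).rootMultiplicity α : ℤ) * (((τ - α).num.natAbs.factorization p : ℕ) : ℤ)) := by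
    by_cases h : β ∣ (τ - α₁).num.natAbs.factorization p
    · refine ⟨α₂, h₂, hcon hden h, fun h3 h4 i => hD₂ i p hp ?_ τ hden h3 h4⟩
      have := Finset.single_le_sum (f := D₂) (fun _ _ => Nat.zero_le _) (Finset.mem_univ i)
      omega
    · refine ⟨α₁, h₁, h, fun h3 h4 i => hD₁ i p hp ?_ τ hden h3 h4⟩
      have := Finset.single_le_sum (f := D₁) (fun _ _ => Nat.zero_le _) (Finset.mem_univ i)
      omega
  set v : ℕ := (τ - α).num.natAbs.factorization p with hv
  have hv0 : v ≠ 0 := fun h => hnd (h ▸ dvd_zero β)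
  have hne : τ ≠ α := by
    rintro rfl
    apply hv0
    rw [hv]
    simp
  have hdvd : (p : ℤ) ∣ (τ - α).num := by
    rw [Int.natCast_dvd]
    by_contra h
    exact hv0 (Nat.factorization_eq_zero_of_not_dvd h)
  have hord' := hord hne hdvd
  have hzv : ∀ i, padicValRat p (z i : ℚ) = ((z i).factorization p : ℤ) := by
    intro i
    rw [padicValRat.of_nat, Nat.factorization_def _ hp]
  have hf1 : ∀ i, (M (Sum.inl i)).factorization p =
      (F (Sum.inl i)).rootMultiplicity α * v + β * (z (Sum.inl i)).factorization p := by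
    intro i
    obtain ⟨h3, h4⟩ := hord' (Sum.inl i)
    have hz0 : ((z (Sum.inl i) : ℕ) : ℚ) ≠ 0 := by exact_mod_cast hz _
    have h5 : padicValRat p (M (Sum.inl i) : ℚ) =
        (F (Sum.inl i)).rootMultiplicity α * v + β * (z (Sum.inl i)).factorization p := by
      rw [hM1 i, padicValRat.mul (mul_ne_zero (hw _).1 (pow_ne_zero _ hz0)) h3,
        padicValRat.mul (hw _).1 (pow_ne_zero _ hz0), padicValRat.pow, val_SUnit (hw _) hp hpS,
        h4, hzv]
      ring
    rw [padicValRat.of_nat, ← Nat.factorization_def _ hp] at h5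
    exact_mod_cast h5
  have hf2 : ∀ j, (M (Sum.inr j)).factorization p =
      (F (Sum.inr j)).rootMultiplicity α * v + (z (Sum.inr j)).factorization p := by
    intro j
    obtain ⟨h3, h4⟩ := hord' (Sum.inr j)
    have hz0 : ((z (Sum.inr j) : ℕ) : ℚ) ≠ 0 := by exact_mod_cast hz _
    have h5 : padicValRat p (M (Sum.inr j) : ℚ) =
        (F (Sum.inr j)).rootMultiplicity α * v + (z (Sum.inr j)).factorization p := by
      rw [hM2 j, padicValRat.mul (mul_ne_zero (hw _).1 hz0) h3,
        padicValRat.mul (hw _).1 hz0, val_SUnit (hw _) hp hpS, h4, hzv]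
      ring
    rw [padicValRat.of_nat, ← Nat.factorization_def _ hp] at h5
    exact_mod_cast h5
  refine ⟨fun j h0 => ?_, fun _ => p, fun _ => ⟨hp, by show D < p; omega⟩, fun _ i => ?_, fun _ i j hij hmod => ?_,
    fun I hI γ hγ => ?_⟩
  · obtain ⟨h3, -⟩ := hord' (Sum.inr j)
    have h4 := hM2 j
    change M (Sum.inr j) = 0 at h0
    rw [h0, Nat.cast_zero] at h4
    exact (mul_ne_zero (mul_ne_zero (hw _).1 (by exact_mod_cast hz _)) h3) h4.symm
  · show β ≤ (M (Sum.inl i)).factorization p
    rw [hf1]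
    calc β = β * 1 := (mul_one _).symm
      _ ≤ (F (Sum.inl i)).rootMultiplicity α * v :=
        Nat.mul_le_mul (hgood.ge i) (Nat.pos_of_ne_zero hv0)
      _ ≤ _ := Nat.le_add_right _ _
  · change (M (Sum.inl i)).factorization p ≡ (M (Sum.inl j)).factorization p [MOD β] at hmod
    rw [hf1, hf1] at hmod
    have h3 : (F (Sum.inl i)).rootMultiplicity α * v ≡ (F (Sum.inl j)).rootMultiplicity α * v
        [MOD β] := by
      have h4 : ∀ x k : ℕ, x + β * k ≡ x [MOD β] := fun x k => by
        show (x + β * k) % β = x % β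
        rw [Nat.add_mul_mod_self_left]
      exact (h4 _ _).symm.trans (hmod.trans (h4 _ _))
    have h5 : (β : ℤ) ∣ ((F (Sum.inl i)).rootMultiplicity α - (F (Sum.inl j)).rootMultiplicity α :
        ℤ) * v := by
      have h6 := (Nat.modEq_iff_dvd.1 h3.symm)
      push_cast at h6
      rw [sub_mul]
      exact h6
    have h7 : IsCoprime (β : ℤ) ((F (Sum.inl i)).rootMultiplicity α -
        (F (Sum.inl j)).rootMultiplicity α : ℤ) :=
      (Int.isCoprime_iff_gcd_eq_one.2 (hgood.diff i j hij)).symm
    have h8 := h7.dvd_of_dvd_mul_left h5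
    exact hnd (by exact_mod_cast h8)
  · have hq' : q = 0 ∨ q = 1 := by omega
    rcases hq' with rfl | rfl
    · exact Subsingleton.elim _ _
    · obtain ⟨l, hl⟩ : I.Nonempty := by
        rw [← Finset.card_pos, hI]
        exact one_pos
      have h3 := hγ l hl
      rw [Fin.sum_univ_one] at h3
      have h4 : (M (Sum.inr 0)).factorization p ≠ 0 := by
        rw [hf2]
        have := Nat.mul_pos (hgood.tor 0) (Nat.pos_of_ne_zero hv0)
        omega
      rcases mul_eq_zero.1 h3 with h5 | h5
      · funext j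
        rw [Subsingleton.elim j 0, h5]
        rfl
      · exact absurd (by exact_mod_cast h5) h4

/-- Pink's conjecture in its strong form for all but finitely many members, with arbitrary
multipliers, of families of projective algebraic sets of any dimension mapped to the abelian scheme
`E_L^n × G_m^q → Y(2) × G_m^q`, `q ≤ 1`. -/
theorem result {κ : Type*} (K : Subfield ℂ) [Countable K] (N n q m : ℕ) (hq : q ≤ 1)
    (G : κ → MvPolynomial (Fin (N + 1)) K) (a b : Ind n q → MvPolynomial (Fin (N + 1)) K)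
    (dg : Ind n q → ℕ) (hY : IsMap G a b dg m)
    (β : ℕ) (hβ : 3 ≤ β) (F : Ind n q → Polynomial ℚ) (hF : ∀ i, F i ≠ 0)
    (α₁ α₂ : ℚ) (hα : α₁ ≠ α₂) (h₁ : GoodOrders β F α₁) (h₂ : GoodOrders β F α₂)
    (S : Finset ℕ) :
    {τ : ℚ | IsSInt S τ ∧ ¬ ∀ (w : Ind n q → ℚ) (z M : Ind n q → ℕ), (∀ i, IsSUnit S (w i)) →
      (∀ i, z i ≠ 0) →
      (∀ i, (M (Sum.inl i) : ℚ) = w (Sum.inl i) * (z (Sum.inl i) : ℚ) ^ β *
        (F (Sum.inl i)).eval τ) →
      (∀ j, (M (Sum.inr j) : ℚ) = w (Sum.inr j) * (z (Sum.inr j) : ℚ) * (F (Sum.inr j)).eval τ) →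
      ∀ c : Ind n q → ℂ, IsScaling β c (fun i => M (Sum.inl i)) (fun j => M (Sum.inr j)) →
        Pink K m (scaled G a b c)}.Finite := by
  classical
  obtain ⟨D, C, hD⟩ := Pool.Agent.Results.MP_a325a5_ag.LegendreScaledImages.result K N n q m G a b dg
    hY ∅ (fun γ hγ => absurd hγ (Finset.notMem_empty γ))
  obtain ⟨hmain, -⟩ := hD β (by omega)
  refine (spread n q D hq hβ F hF hα h₁ h₂ S).subset ?_
  rintro τ ⟨h1, h2⟩
  refine ⟨h1, fun h3 => h2 fun w z M hw hz hM1 hM2 c hc => ?_⟩
  exact pink_of_noAtypical K (hmain c _ _ hc (h3 w z M hw hz hM1 hM2))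

end Pool.Agent.Results.MP_28d749_ag.FinitelyManyExceptions
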