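import Pool.Agent.Q116.ZE.CountL
import Pool.Agent.Results.MP_a325a5_ag.LegendreScaledImages

/-!
# MP_28d749_ag: Pink's conjecture for almost all scalings of projective sets of any dimension mapped to
the fibre powers of the Legendre family

The abelian scheme is `𝒜 = E_L^n × G_m^q → Y(2) × G_m^q`, where `E_L^n` is the `n`-th fibre power of the
Legendre family of elliptic curves `y² = x (x - 1) (x - t)` over `Y(2)`, the line of the parameters
`t ≠ 0, 1`. Its points are `(t, P, u)`, `P_i` points of the Legendre curve with the parameter `t`,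
`u_j ≠ 0` (`Amb`); `(t, u)` is the point of the base, which has the dimension `q + 1`. For
`q = 0` this is the `n`-th fibre power of the Legendre family itself.

`InSubgroup ρ z`: the point `z` lies in an algebraic subgroup of codimension at least `ρ` of its fibre
`E_t^n`, i.e. in `𝒜^[≥ρ]`. The algebraic subgroups are given, up to torsion, by linear relations
between the `P_i`: with integral coefficients, or with coefficients in `ℤ + ℤ φ` if the fibre has the
complex multiplication `φ`; then the rank over `ℤ` of the module of the relations is twice the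
codimension.

We consider the constructible sets `X_c ⊂ 𝒜` of the starting file `LegendreScaledImages` of
`MP_a325a5_ag` (whose definitions `scaled`, `IsMap`, `IsScaling` are used here): `Y ⊆ P^N` is a
projective algebraic set of any dimension over a countable field `K ⊂ ℂ`, `f_0 = a_0 / b_0`,
`f_i = a_i / (b_0 b_i)`, `f_j = a_j / b_j` are rational functions on `Y` over `K`, one for every
coordinate `t`, `x (P_i)`, `u_j`, no point of `Y` is on `m + 1` of the divisors `a_s b_s = 0` and the
coordinate hyperplanes (for `Y` of dimension `m` this is so in general), and `X_c` is the set of all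
points with `t = f_0 (y) / c_0`, `x (P_i) = f_i (y) / (c_0 c_i)`, `u_j = f_j (y) / c_j` for some
`y ∈ Y`.

`Pink K m X_c`, the strong form of Pink's conjecture which we prove for almost all `c`:

* `X_c ∩ 𝒜^[>m]` is empty;
* for all `ρ` every point of `X_c ∩ 𝒜^[≥ρ]` has transcendence degree at most `m - ρ` over `K`, and
  every irreducible closed set which is, outside of a hypersurface, in `X_c ∩ 𝒜^[≥ρ]` has dimension
  at most `m - ρ`. (For `ρ = 0`: `X_c` has dimension at most `m`; for `ρ = 1`: no component of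
  dimension `m` is in a strict group subscheme.)

So Pink's conjecture holds for the closures `X` of the components of dimension `m` of `X_c`: the
set `X ∩ 𝒜^[>m]` is in the complement of the dense constructible subset `X ∩ X_c`. The scalings are
`β`-th roots of positive integers `c_0`, `c_i` and positive integers `c_j`. Let `L = (q - 1) 2 ^ q + 1`
(this is `1` for `q = 0` and `q = 1`).

* **`S`-units.** There is a number `D` such that for all `β > 0` and all finite sets `S` of primes, `L`
  of which are larger than `D`, among the `H ^ T`, `T = |S| (n + 1 + q)`, matrices of exponents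
  `1 ≤ e ≤ H` there are at most
  `L (n + 1)² / β * H ^ T + (L (n + 1) (β + n + 1) + q L ^ q) * H ^ (T - 1)` for which
  `X_c`, `c_i = ∏_{s ∈ S} s ^ (e_{s,i} / β)`, `c_j = ∏_{s ∈ S} s ^ (e_{s,j})` does not have the
  property `Pink`.

* **Polynomial families.** Let `f_1, …, f_L` be pairwise coprime polynomials of degrees between `1` and
  `k` with integral coefficients, `g_i`, `g_j` nonzero polynomials coprime to the `f_l`. There are
  constants `C`, `E` such that for all prime numbers `β` and all exponents with `GoodExpL` (for example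
  `e_l 0 = β`, `e_l i = β + i` for `1 ≤ i ≤ n < β`) the set `X_c`,
  `c_i ^ β = |g_i (t)| ∏_l |f_l (t)| ^ (e_l i)`, `c_j = |g_j (t)| ∏_l |f_l (t)| ^ (a'_l j)` has the
  property `Pink` for all integers `|t| ≤ H`, with at most `C H ^ (k / β) (1 + log H) ^ E` exceptions.
-/

set_option autoImplicit false

namespace Pool.Agent.Results.MP_28d749_ag.LegendreScalings

open MvPolynomial Pool.Agent.W466.EP Pool.Agent.W282.ZP Pool.Agent.W282.LF
open Pool.Agent.Results.MP_a325a5_ag.LegendreScaledImages

variable {n q : ℕ}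

/-- The point `z = (t, P, u)` of `E_L^n × G_m^q` lies in an algebraic subgroup of codimension at least
`ρ` of its fibre `E_t^n`. -/
def InSubgroup (ρ : ℕ) (z : Amb n q) : Prop :=
  (∃ (T : ℕ) (M : Submodule ℤ (Fin n → ℤ)), 0 < T ∧ ρ ≤ Module.finrank ℤ M ∧
    ∀ r ∈ M, T • ∑ i, r i • z.P i = 0) ∨
  ∃ (φ : CMLeg z.t) (T : ℕ) (M : Submodule ℤ (Fin n → ℤ × ℤ)), 0 < T ∧
    2 * ρ ≤ Module.finrank ℤ M ∧
    ∀ r ∈ M, T • ∑ i, ((r i).1 • z.P i + (r i).2 • φ.φ (z.P i)) = 0

/-- The strong form of Pink's conjecture. -/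
def Pink (K : Subfield ℂ) (m : ℕ) (V : Set (Amb n q)) : Prop :=
  (∀ z ∈ V, ∀ ρ, m < ρ → ¬ InSubgroup ρ z) ∧
  ∀ ρ : ℕ, (∀ z ∈ V, InSubgroup ρ z → ∀ S : Finset (Ind n q),
      AlgebraicIndependent K (fun s : S => coords z s) → S.card + ρ ≤ m) ∧
    ∀ (s : ℕ) (ε : Fin s ≃ Ind n q) (W : Set (Fin s → ℂ)) (f : MvPolynomial (Fin s) ℂ),
      (∀ w ∈ W, eval w f ≠ 0 → ∃ z ∈ V, InSubgroup ρ z ∧ ∀ i, w i = coords z (ε i)) →
      zcl W ⊆ W → (idealOf W).IsPrime → f ∉ idealOf W →
      zdim W + (ρ : Cardinal) ≤ (m : Cardinal)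

theorem pink_of_noAtypical (K : Subfield ℂ) [Countable K] {m : ℕ} {V : Set (Amb n q)}
    (h : NoAtypical K ∅ m V) : Pink K m V := by
  classical
  have hpt : ∀ ρ : ℕ, ∀ z ∈ V, InSubgroup ρ z → ∀ S : Finset (Ind n q),
      AlgebraicIndependent K (fun s : S => coords z s) → S.card + ρ ≤ m := by
    rintro ρ z hz (⟨T, M, hT, hM, hr⟩ | ⟨φ, T, M, hT, hM, hr⟩) S hS
    · let Z : Special n q ∅ :=
        { E := .gen M, T := T, T0 := hT, relm := ⊥, pt := 1,
          hullm := fun j => ⟨1, one_pos, by simp⟩ }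
      have h1 := (h Z).1 z ⟨hz, hr, fun b hb => by
        rw [(Submodule.mem_bot ℤ).1 hb]
        simp⟩ S hS
      have h2 : Z.codim = Module.finrank ℤ M + Module.finrank ℤ (⊥ : Submodule ℤ (Fin q → ℤ)) := rfl
      rw [h2] at h1
      omega
    · let Z : Special n q ∅ :=
        { E := .cm z.t φ M, T := T, T0 := hT, relm := ⊥, pt := 1,
          hullm := fun j => ⟨1, one_pos, by simp⟩ }
      have h1 := (h Z).1 z ⟨hz, ⟨rfl, hr⟩, fun b hb => by
        rw [(Submodule.mem_bot ℤ).1 hb]
        simp⟩ S hS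
      have h2 : Z.codim = 1 + (Module.finrank ℤ M + 1) / 2 +
        Module.finrank ℤ (⊥ : Submodule ℤ (Fin q → ℤ)) := rfl
      rw [h2] at h1
      omega
  refine ⟨fun z hz ρ hρ hin => ?_, fun ρ => ⟨hpt ρ, ?_⟩⟩
  · have h1 := hpt ρ z hz hin ∅ (by
      have : IsEmpty (∅ : Finset (Ind n q)) := by
        refine ⟨fun x => ?_⟩
        exact absurd x.2 (Finset.notMem_empty _)
      exact algebraicIndependent_empty_type)
    rw [Finset.card_empty] at h1
    omega
  · intro s ε W f hW hcl hprime hf
    obtain ⟨w, hwW, hfw, T, hT, hdim⟩ := generic_dim_open K W hprime hcl f hf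
    obtain ⟨z, hz, hin, hwz⟩ := hW w hwW hfw
    let S : Finset (Ind n q) := T.map ε.toEmbedding
    have hS : AlgebraicIndependent K (fun s : S => coords z s) := by
      let f : S → T := fun s => ⟨ε.symm s, by
        obtain ⟨t, ht, hts⟩ := Finset.mem_map.1 s.2
        have h2 : ε.symm (s : Ind n q) = t := by
          rw [← hts]
          exact ε.symm_apply_apply t
        rw [h2]
        exact ht⟩
      have hf : Function.Injective f := by
        intro s s' hss
        have h2 := congrArg (Subtype.val : T → Fin _) hss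
        exact Subtype.ext (ε.symm.injective h2)
      have h2 := hT.comp f hf
      convert h2 using 1
      funext s
      change coords z s = w (ε.symm s)
      rw [hwz, ε.apply_symm_apply]
    have h2 := hpt ρ z hz hin S hS
    rw [Finset.card_map] at h2
    calc zdim W + (ρ : Cardinal) ≤ (T.card : Cardinal) + (ρ : Cardinal) := by gcongr
      _ = ((T.card + ρ : ℕ) : Cardinal) := by push_cast; rfl
      _ ≤ (m : Cardinal) := by exact_mod_cast h2

/-- Pink's conjecture in its strong form for almost all scalings by roots of `S`-units, and for the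
members of polynomial families with very few exceptions, of a projective algebraic set mapped to the
abelian scheme `E_L^n × G_m^q → Y(2) × G_m^q`. -/
theorem result {κ : Type*} (K : Subfield ℂ) [Countable K] (N n q m : ℕ)
    (G : κ → MvPolynomial (Fin (N + 1)) K) (a b : Ind n q → MvPolynomial (Fin (N + 1)) K)
    (dg : Ind n q → ℕ) (hY : IsMap G a b dg m) :
    ∃ D : ℕ,
      (∀ β : ℕ, 0 < β → ∀ S : Finset ℕ, (∀ s ∈ S, s.Prime) →
        (q - 1) * 2 ^ q + 1 ≤ (S.filter fun s => D < s).card → ∀ H : ℕ,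
        (Set.ncard {e : S → Ind n q → ℕ | (∀ s i, 1 ≤ e s i ∧ e s i ≤ H) ∧
          ¬ ∀ c : Ind n q → ℂ, IsScaling β c (fun i => ∏ s : S, (s : ℕ) ^ e s (Sum.inl i))
            (fun j => ∏ s : S, (s : ℕ) ^ e s (Sum.inr j)) → Pink K m (scaled G a b c)} : ℝ) ≤
        ((q - 1) * 2 ^ q + 1 : ℕ) * ((n : ℝ) + 1) ^ 2 / β * (H : ℝ) ^ (S.card * (n + 1 + q)) +
          (((q - 1) * 2 ^ q + 1 : ℕ) * ((n : ℝ) + 1) * (β + (n + 1)) +
            q * ((q - 1) * 2 ^ q + 1 : ℕ) ^ q) * (H : ℝ) ^ (S.card * (n + 1 + q) - 1)) ∧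
      ∀ (f : Fin ((q - 1) * 2 ^ q + 1) → Polynomial ℤ) (k : ℕ),
        (∀ l, 1 ≤ (f l).natDegree ∧ (f l).natDegree ≤ k) →
        (∀ l l', l ≠ l' →
          IsCoprime ((f l).map (Int.castRingHom ℚ)) ((f l').map (Int.castRingHom ℚ))) →
        ∀ g : Ind n q → Polynomial ℤ, (∀ i, g i ≠ 0) →
        (∀ l i, IsCoprime ((f l).map (Int.castRingHom ℚ)) ((g i).map (Int.castRingHom ℚ))) →
        ∃ (C : ℝ) (E : ℕ), ∀ β : ℕ, β.Prime →
          ∀ (e : Fin ((q - 1) * 2 ^ q + 1) → Option (Fin n) → ℕ)
            (a' : Fin ((q - 1) * 2 ^ q + 1) → Fin q → ℕ), GoodExpL n q β e a' →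
          ∀ H : ℕ, 1 ≤ H →
            (Set.ncard {t : ℤ | |t| ≤ H ∧ ¬ ∀ c : Ind n q → ℂ,
              IsScaling β c
                (fun i => ((g (Sum.inl i)).eval t).natAbs * ∏ l, ((f l).eval t).natAbs ^ e l i)
                (fun j => ((g (Sum.inr j)).eval t).natAbs * ∏ l, ((f l).eval t).natAbs ^ a' l j) →
                Pink K m (scaled G a b c)} : ℝ) ≤
            C * (H : ℝ) ^ ((k : ℝ) / β) * (1 + Real.log H) ^ E := by
  classical
  obtain ⟨D, C, hD⟩ := Pool.Agent.Results.MP_a325a5_ag.LegendreScaledImages.result K N n q m G a b dg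
    hY ∅ (fun γ hγ => absurd hγ (Finset.notMem_empty γ))
  refine ⟨D, fun β hβ S hS hL H => ?_, fun f k hf hcop g hg hfg => ?_⟩
  · obtain ⟨hmain, -⟩ := hD β hβ
    let ro : Fin ((q - 1) * 2 ^ q + 1) → S := fun l =>
      ⟨(S.filter fun q => D < q).orderEmbOfCardLe hL l,
        (Finset.mem_filter.1 (Finset.orderEmbOfCardLe_mem _ hL l)).1⟩
    have hro : Function.Injective ro := by
      intro l l' h
      have h1 : (ro l : ℕ) = (ro l' : ℕ) := by rw [h]
      exact ((S.filter fun q => D < q).orderEmbOfCardLe hL).injective h1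
    have hroD : ∀ l, D < (ro l : ℕ) := fun l =>
      (Finset.mem_filter.1 (Finset.orderEmbOfCardLe_mem _ hL l)).2
    have hgood : ∀ e : S → Ind n q → ℕ,
        GoodExpL n q β (fun l i => e (ro l) (Sum.inl i)) (fun l j => e (ro l) (Sum.inr j)) →
        ∀ c : Ind n q → ℂ, IsScaling β c (fun i => ∏ s : S, (s : ℕ) ^ e s (Sum.inl i))
            (fun j => ∏ s : S, (s : ℕ) ^ e s (Sum.inr j)) → Pink K m (scaled G a b c) := by
      intro e he c hc
      refine pink_of_noAtypical K (hmain c _ _ hc ⟨fun j => Finset.prod_ne_zero_iff.2 fun s _ =>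
        pow_ne_zero _ (hS s s.2).ne_zero, fun l => ro l, fun l => ⟨hS _ (ro l).2, hroD l⟩, ?_, ?_,
        ?_⟩)
      · intro l i
        rw [Pool.Agent.Q41.ZP.fac_S S hS (fun s i => e s (Sum.inl i)) (ro l) i]
        exact he.1 l i
      · intro l i j hij
        rw [Pool.Agent.Q41.ZP.fac_S S hS (fun s i => e s (Sum.inl i)) (ro l) i,
          Pool.Agent.Q41.ZP.fac_S S hS (fun s i => e s (Sum.inl i)) (ro l) j]
        exact he.2.1 l i j hij
      · intro I hI γ hγ
        refine he.2.2 I hI γ fun l hl => ?_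
        rw [← hγ l hl]
        refine Finset.sum_congr rfl fun j _ => ?_
        rw [Pool.Agent.Q41.ZP.fac_S S hS (fun s j => e s (Sum.inr j)) (ro l) j]
    have hcount := Pool.Agent.Q116.ZE.count_goodL (K := S) n q β ro hro H
    rw [Fintype.card_coe] at hcount
    set L := (q - 1) * 2 ^ q + 1 with hLdef
    have h1 : Set.ncard {e : S → Ind n q → ℕ | (∀ s i, 1 ≤ e s i ∧ e s i ≤ H) ∧
          ¬ ∀ c : Ind n q → ℂ, IsScaling β c (fun i => ∏ s : S, (s : ℕ) ^ e s (Sum.inl i))
            (fun j => ∏ s : S, (s : ℕ) ^ e s (Sum.inr j)) → Pink K m (scaled G a b c)} ≤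
        (L * (n + 1) * β + L * (n + 1) ^ 2 * (H / β + 1) + q * L ^ q) *
          H ^ (S.card * (n + 1 + q) - 1) := by
      refine le_trans ?_ hcount
      rw [← Set.ncard_coe_finset]
      refine Set.ncard_le_ncard_of_injOn (fun e z => e z.1 z.2) ?_ ?_ (Finset.finite_toSet _)
      · rintro e ⟨he1, he2⟩
        rw [Finset.mem_coe, Finset.mem_filter, Fintype.mem_piFinset]
        exact ⟨fun z => Finset.mem_Icc.2 (he1 z.1 z.2), fun h => he2 (hgood e h)⟩
      · intro e _ e' _ h
        funext s i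
        exact congrFun h (s, i)
    refine (Nat.cast_le.2 h1).trans ?_
    have hβ0 : (0 : ℝ) < β := by exact_mod_cast hβ
    have h2 : ((H / β : ℕ) : ℝ) ≤ (H : ℝ) / β := Nat.cast_div_le
    have h4 : (H : ℝ) * (H : ℝ) ^ (S.card * (n + 1 + q) - 1) =
        (H : ℝ) ^ (S.card * (n + 1 + q)) := by
      have h5 : 0 < S.card * (n + 1 + q) := by
        refine Nat.mul_pos ?_ (by omega)
        have h6 := Finset.card_filter_le S (fun s => D < s)
        omega
      rw [← pow_succ']
      congr 1
      omega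
    push_cast
    calc ((L : ℝ) * (n + 1) * β + L * ((n : ℝ) + 1) ^ 2 * (((H / β : ℕ) : ℝ) + 1) +
            q * (L : ℝ) ^ q) * (H : ℝ) ^ (S.card * (n + 1 + q) - 1)
        ≤ ((L : ℝ) * (n + 1) * β + L * ((n : ℝ) + 1) ^ 2 * ((H : ℝ) / β + 1) +
            q * (L : ℝ) ^ q) * (H : ℝ) ^ (S.card * (n + 1 + q) - 1) := by gcongr
      _ = L * ((n : ℝ) + 1) ^ 2 / β * ((H : ℝ) * (H : ℝ) ^ (S.card * (n + 1 + q) - 1)) +
          (L * ((n : ℝ) + 1) * (β + (n + 1)) + q * (L : ℝ) ^ q) *
            (H : ℝ) ^ (S.card * (n + 1 + q) - 1) := by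
          field_simp
          ring
      _ = _ := by
          rw [h4]
  · obtain ⟨C', E, hC'⟩ := Pool.Agent.Q116.ZE.poly_exceptions f k hf hcop g hg hfg D
    refine ⟨C', E, fun β hβ e a' hea H hH => ?_⟩
    obtain ⟨hmain, -⟩ := hD β hβ.pos
    refine le_trans (Nat.cast_le.2 (Set.ncard_le_ncard ?_ ?_)) (hC' β hβ.one_lt.le H hH)
    · rintro t ⟨ht1, ht2⟩
      refine ⟨ht1, fun hgood => ht2 fun c hc => ?_⟩
      exact pink_of_noAtypical K
        (hmain c _ _ hc (Pool.Agent.Q116.ZE.spreadL_of_goodAt hβ hea hgood))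
    · refine (Set.finite_Icc (-(H : ℤ)) H).subset ?_
      rintro t ⟨ht1, -⟩
      exact abs_le.1 ht1

end Pool.Agent.Results.MP_28d749_ag.LegendreScalings
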