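import Pool.Agent.Q41.ZP.SpreadL
import Pool.Agent.Results.MP_a325a5_ag.LegendreScaledImages

/-!
# MP_28d749_ag: Pink's conjecture for the members of multi-parameter families of scalings, with
arbitrary multipliers, in the fibre powers of the Legendre family

The abelian scheme is `𝒜 = E_L^n × G_m^q → Y(2) × G_m^q`, where `E_L^n` is the `n`-th fibre power of the
Legendre family of elliptic curves `y² = x (x - 1) (x - t)` over `Y(2)`, the line of the parameters
`t ≠ 0, 1`. Its points are `(t, P, u)`, `P_i` points of the Legendre curve with parameter `t`,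
`u_j ≠ 0` (`Amb`); `(t, u)` is the point of the base, which has the dimension `q + 1`. For
`q = 0` this is the `n`-th fibre power of the Legendre family itself.

`InSubgroup ρ z`: the point `z` lies in an algebraic subgroup of codimension at least `ρ` of its fibre
`E_t^n`, i.e. in `𝒜^[≥ρ]`. The algebraic subgroups are given, up to torsion, by linear relations
between the `P_i`: with integral coefficients, or with coefficients in `ℤ + ℤ φ` if the fibre has the
complex multiplication `φ`; then the rank over `ℤ` of the module of the relations is twice the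
codimension.

We consider the constructible sets `X_c ⊂ 𝒜` of the starting file `LegendreScaledImages` of
`MP_a325a5_ag` (whose definitions `scaled`, `IsMap`, `IsScaling` are used here): `Y ⊆ P^N` is a
projective algebraic set of any dimension over a countable field `K ⊂ ℂ`, `f_0 = a_0 / b_0`,
`f_i = a_i / (b_0 b_i)`, `f_j = a_j / b_j` are rational functions on `Y` over `K`, one for every
coordinate `t`, `x (P_i)`, `u_j`, no point of `Y` is on `m + 1` of the divisors `a_s b_s = 0` and the
coordinate hyperplanes (for `Y` of dimension `m` this is so in general), and `X_c` is the set of all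
points with `t = f_0 (y) / c_0`, `x (P_i) = f_i (y) / (c_0 c_i)`, `u_j = f_j (y) / c_j` for some
`y ∈ Y`.

`Pink K m X_c`, the strong form of Pink's conjecture:

* `X_c ∩ 𝒜^[>m]` is empty;
* for all `ρ` every point of `X_c ∩ 𝒜^[≥ρ]` has transcendence degree at most `m - ρ` over `K`, and
  every irreducible closed set which is, outside of a hypersurface, in `X_c ∩ 𝒜^[≥ρ]` has dimension
  at most `m - ρ`.

The parameters are the integral points `z = (z_1, …, z_s)`, `s` arbitrary. Let `L = (q - 1) 2 ^ q + 1`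
(this is `1` for `q = 0` and `q = 1`), let `F_1, …, F_L` be polynomials in `s` variables with integral
coefficients, every `F_l` with a nonconstant irreducible factor `P_l` of degree at most `k` which does
not divide the other `F_l'`, and `g_i`, `g_j` polynomials not divisible by the `P_l`. Let `S` be a
finite set of primes, `ε > 0`. There is a constant `C` such that for all prime numbers `β` for which
`P_l ^ β` does not divide `F_l`, and all exponents with `GoodExpL`, the following holds for all `z`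
with `|z_i| ≤ H` but at most `C H ^ (s - 1 + k / β + ε)`: for ALL natural numbers `w_i`, `w_j` composed
of the primes in `S` and ALL positive integers `y_i` the set `X_c` with
`c_i ^ β = w_i y_i ^ β |g_i (z)| ∏_l |F_l (z)| ^ (e_l i)`, `c_j = w_j |g_j (z)| ∏_l |F_l (z)| ^ (a'_l j)`
has the property `Pink`.
-/

set_option autoImplicit false

namespace Pool.Agent.Results.MP_28d749_ag.MultiparameterScalings

open MvPolynomial Pool.Agent.W466.EP Pool.Agent.W282.ZP Pool.Agent.W282.LF
open Pool.Agent.Results.MP_a325a5_ag.LegendreScaledImages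

variable {n q : ℕ}

/-- The point `z = (t, P, u)` of `E_L^n × G_m^q` lies in an algebraic subgroup of codimension at least
`ρ` of its fibre `E_t^n`. -/
def InSubgroup (ρ : ℕ) (z : Amb n q) : Prop :=
  (∃ (T : ℕ) (M : Submodule ℤ (Fin n → ℤ)), 0 < T ∧ ρ ≤ Module.finrank ℤ M ∧
    ∀ r ∈ M, T • ∑ i, r i • z.P i = 0) ∨
  ∃ (φ : CMLeg z.t) (T : ℕ) (M : Submodule ℤ (Fin n → ℤ × ℤ)), 0 < T ∧
    2 * ρ ≤ Module.finrank ℤ M ∧
    ∀ r ∈ M, T • ∑ i, ((r i).1 • z.P i + (r i).2 • φ.φ (z.P i)) = 0

/-- The strong form of Pink's conjecture. -/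
def Pink (K : Subfield ℂ) (m : ℕ) (V : Set (Amb n q)) : Prop :=
  (∀ z ∈ V, ∀ ρ, m < ρ → ¬ InSubgroup ρ z) ∧
  ∀ ρ : ℕ, (∀ z ∈ V, InSubgroup ρ z → ∀ S : Finset (Ind n q),
      AlgebraicIndependent K (fun s : S => coords z s) → S.card + ρ ≤ m) ∧
    ∀ (s : ℕ) (ε : Fin s ≃ Ind n q) (W : Set (Fin s → ℂ)) (f : MvPolynomial (Fin s) ℂ),
      (∀ w ∈ W, eval w f ≠ 0 → ∃ z ∈ V, InSubgroup ρ z ∧ ∀ i, w i = coords z (ε i)) →
      zcl W ⊆ W → (idealOf W).IsPrime → f ∉ idealOf W →
      zdim W + (ρ : Cardinal) ≤ (m : Cardinal)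

/-- `w` is composed of the primes in `S`. -/
def IsSNatural (S : Finset ℕ) (w : ℕ) : Prop := w ≠ 0 ∧ ∀ p, p.Prime → p ∣ w → p ∈ S

theorem pink_of_noAtypical (K : Subfield ℂ) [Countable K] {m : ℕ} {V : Set (Amb n q)}
    (h : NoAtypical K ∅ m V) : Pink K m V := by
  classical
  have hpt : ∀ ρ : ℕ, ∀ z ∈ V, InSubgroup ρ z → ∀ S : Finset (Ind n q),
      AlgebraicIndependent K (fun s : S => coords z s) → S.card + ρ ≤ m := by
    rintro ρ z hz (⟨T, M, hT, hM, hr⟩ | ⟨φ, T, M, hT, hM, hr⟩) S hS
    · let Z : Special n q ∅ :=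
        { E := .gen M, T := T, T0 := hT, relm := ⊥, pt := 1,
          hullm := fun j => ⟨1, one_pos, by simp⟩ }
      have h1 := (h Z).1 z ⟨hz, hr, fun b hb => by
        rw [(Submodule.mem_bot ℤ).1 hb]
        simp⟩ S hS
      have h2 : Z.codim = Module.finrank ℤ M + Module.finrank ℤ (⊥ : Submodule ℤ (Fin q → ℤ)) := rfl
      rw [h2] at h1
      omega
    · let Z : Special n q ∅ :=
        { E := .cm z.t φ M, T := T, T0 := hT, relm := ⊥, pt := 1,
          hullm := fun j => ⟨1, one_pos, by simp⟩ }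
      have h1 := (h Z).1 z ⟨hz, ⟨rfl, hr⟩, fun b hb => by
        rw [(Submodule.mem_bot ℤ).1 hb]
        simp⟩ S hS
      have h2 : Z.codim = 1 + (Module.finrank ℤ M + 1) / 2 +
        Module.finrank ℤ (⊥ : Submodule ℤ (Fin q → ℤ)) := rfl
      rw [h2] at h1
      omega
  refine ⟨fun z hz ρ hρ hin => ?_, fun ρ => ⟨hpt ρ, ?_⟩⟩
  · have h1 := hpt ρ z hz hin ∅ (by
      have : IsEmpty (∅ : Finset (Ind n q)) := by
        refine ⟨fun x => ?_⟩
        exact absurd x.2 (Finset.notMem_empty _)
      exact algebraicIndependent_empty_type)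
    rw [Finset.card_empty] at h1
    omega
  · intro s ε W f hW hcl hprime hf
    obtain ⟨w, hwW, hfw, T, hT, hdim⟩ := generic_dim_open K W hprime hcl f hf
    obtain ⟨z, hz, hin, hwz⟩ := hW w hwW hfw
    let S : Finset (Ind n q) := T.map ε.toEmbedding
    have hS : AlgebraicIndependent K (fun s : S => coords z s) := by
      let f : S → T := fun s => ⟨ε.symm s, by
        obtain ⟨t, ht, hts⟩ := Finset.mem_map.1 s.2
        have h2 : ε.symm (s : Ind n q) = t := by
          rw [← hts]
          exact ε.symm_apply_apply t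
        rw [h2]
        exact ht⟩
      have hf : Function.Injective f := by
        intro s s' hss
        have h2 := congrArg (Subtype.val : T → Fin _) hss
        exact Subtype.ext (ε.symm.injective h2)
      have h2 := hT.comp f hf
      convert h2 using 1
      funext s
      change coords z s = w (ε.symm s)
      rw [hwz, ε.apply_symm_apply]
    have h2 := hpt ρ z hz hin S hS
    rw [Finset.card_map] at h2
    calc zdim W + (ρ : Cardinal) ≤ (T.card : Cardinal) + (ρ : Cardinal) := by gcongr
      _ = ((T.card + ρ : ℕ) : Cardinal) := by push_cast; rfl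
      _ ≤ (m : Cardinal) := by exact_mod_cast h2

/-- Pink's conjecture in its strong form for the members of multi-parameter families of scalings, with
arbitrary multipliers, of a projective algebraic set mapped to the abelian scheme
`E_L^n × G_m^q → Y(2) × G_m^q`. -/
theorem result {κ : Type*} (K : Subfield ℂ) [Countable K] (N n q m : ℕ)
    (G : κ → MvPolynomial (Fin (N + 1)) K) (a b : Ind n q → MvPolynomial (Fin (N + 1)) K)
    (dg : Ind n q → ℕ) (hY : IsMap G a b dg m)
    (s k : ℕ) (F P : Fin ((q - 1) * 2 ^ q + 1) → MvPolynomial (Fin s) ℤ)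
    (hP : ∀ l, Irreducible (P l) ∧ 1 ≤ (P l).totalDegree ∧ (P l).totalDegree ≤ k)
    (hF : ∀ l, F l ≠ 0 ∧ P l ∣ F l) (hFF : ∀ l l', l ≠ l' → ¬ P l ∣ F l')
    (g : Ind n q → MvPolynomial (Fin s) ℤ) (hg : ∀ l i, ¬ P l ∣ g i) (S : Finset ℕ)
    (ε : ℝ) (hε : 0 < ε) :
    ∃ C : ℝ, ∀ β : ℕ, β.Prime → (∀ l, ¬ P l ^ β ∣ F l) →
      ∀ (e : Fin ((q - 1) * 2 ^ q + 1) → Option (Fin n) → ℕ)
        (a' : Fin ((q - 1) * 2 ^ q + 1) → Fin q → ℕ), GoodExpL n q β e a' →
      ∀ H : ℕ, 1 ≤ H →
        (Set.ncard {z : Fin s → ℤ | (∀ j, |z j| ≤ (H : ℤ)) ∧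
          ¬ ∀ (w : Ind n q → ℕ) (y : Option (Fin n) → ℕ), (∀ i, IsSNatural S (w i)) →
            (∀ i, y i ≠ 0) → ∀ c : Ind n q → ℂ, IsScaling β c
            (fun i => w (Sum.inl i) * y i ^ β *
              ((eval z (g (Sum.inl i))).natAbs * ∏ l, (eval z (F l)).natAbs ^ e l i))
            (fun j => (w (Sum.inr j) * (eval z (g (Sum.inr j))).natAbs) *
              ∏ l, (eval z (F l)).natAbs ^ a' l j) →
            Pink K m (scaled G a b c)} : ℝ) ≤
        C * (H : ℝ) ^ ((s : ℝ) - 1 + (k : ℝ) / β + ε) := by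
  classical
  obtain ⟨D, C₀, hD⟩ := Pool.Agent.Results.MP_a325a5_ag.LegendreScaledImages.result K N n q m G a b dg
    hY ∅ (fun γ hγ => absurd hγ (Finset.notMem_empty γ))
  obtain ⟨C, hC⟩ := Pool.Agent.Q41.ZP.count_spreadL F P hP hF hFF g hg S D ε hε
  refine ⟨C, fun β hβ hPβ e a' hea H hH => ?_⟩
  obtain ⟨hmain, -⟩ := hD β hβ.pos
  refine le_trans (Nat.cast_le.2 (Set.ncard_le_ncard ?_ ?_)) (hC β hβ hPβ e a' hea H hH)
  · rintro t ⟨htH, ht⟩
    refine ⟨htH, fun hgood => ht fun w y hw hy c hc => ?_⟩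
    exact pink_of_noAtypical K (hmain c _ _ hc (hgood w y hw hy))
  · refine Set.Finite.subset (Set.Finite.pi' fun _ : Fin s => Set.finite_Icc (-(H : ℤ)) H) ?_
    rintro t ⟨ht, -⟩ j
    exact abs_le.1 (ht j)

end Pool.Agent.Results.MP_28d749_ag.MultiparameterScalings
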